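import Mathlib

set_option autoImplicit false

namespace Pool.Agent.Results.MP_0aa9c3_an.Conv

open Filter Topology

lemma osc {d : ℕ → ℝ} (h1 : Antitone fun n => |d n|)
    (h2 : Tendsto (fun n => d (n + 1) - d n) atTop (𝓝 0)) : ∃ l, Tendsto d atTop (𝓝 l) := by
  have t := tendsto_atTop_ciInf h1 ⟨0, by rintro _ ⟨n, rfl⟩; exact abs_nonneg _⟩
  have b : ∀ n, ⨅ n, |d n| ≤ |d n| := ciInf_le ⟨0, by rintro _ ⟨n, rfl⟩; exact abs_nonneg _⟩
  generalize ⨅ n, |d n| = L at t b
  rcases le_or_gt L 0 with h | h
  · obtain rfl : L = 0 := h.antisymm (ge_of_tendsto' t fun _ => abs_nonneg _)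
    exact ⟨0, (tendsto_zero_iff_abs_tendsto_zero d).2 t⟩
  obtain ⟨N, hN⟩ := eventually_atTop.1 (Metric.tendsto_nhds.1 h2 L h)
  simp only [Real.dist_eq, sub_zero, abs_lt] at hN
  rcases le_total 0 (d N) with s | s
  · refine ⟨L, t.congr' (eventually_atTop.2 ⟨N, fun n hn => abs_of_nonneg ?_⟩)⟩
    induction n, hn using Nat.le_induction with
    | base => exact s
    | succ n hn ih => linarith [(hN n hn).1, b n, abs_of_nonneg ih]
  · refine ⟨-L, t.neg.congr' (eventually_atTop.2 ⟨N, fun n hn => ?_⟩)⟩
    have : d n ≤ 0 := by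
      induction n, hn using Nat.le_induction with
      | base => exact s
      | succ n hn ih => linarith [(hN n hn).2, b n, abs_of_nonpos ih]
    simp [abs_of_nonpos this]

lemma pos {T : ℝ → ℝ} (hT : ∀ x y, |T x - T y| ≤ |x - y|) {v : ℝ} (hv : 0 < v)
    (h : ∀ x, v ≤ x - T x) (x y : ℝ) :
    ∃ l, Tendsto (fun n => T^[n] x - T^[n] y) atTop (𝓝 l) := by
  have m : Monotone fun x => x - T x := fun a b hab => by
    have := abs_le.1 ((hT b a).trans_eq (abs_of_nonneg (sub_nonneg.2 hab)))
    linarith [this.2]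
  have g := tendsto_atBot_ciInf m ⟨v, by rintro _ ⟨x, rfl⟩; exact h x⟩
  have e : ∀ x, Tendsto (fun n => T^[n] x) atTop atBot := fun x => by
    refine tendsto_atBot_mono (f := fun n : ℕ => x + -(n * v)) (fun n => ?_) (tendsto_atBot_add_const_left
      _ _ (tendsto_neg_atTop_atBot.comp (tendsto_natCast_atTop_atTop.atTop_mul_const hv)))
    induction n with
    | zero => simp
    | succ n ih => rw [Function.iterate_succ_apply']; push_cast; linarith [h (T^[n] x)]
  refine osc (antitone_nat_of_succ_le fun n => ?_) ?_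
  · simp only [Function.iterate_succ_apply']; exact hT _ _
  · have := (g.comp (e y)).sub (g.comp (e x))
    rw [sub_self] at this
    refine this.congr fun n => ?_
    simp only [Function.iterate_succ_apply', Function.comp]; ring

/-- Differences of orbits of a nonexpansive map of the line with nonzero minimal displacement
vector converge. -/
theorem result (T : ℝ → ℝ) (hT : ∀ x y, |T x - T y| ≤ |x - y|) (v : ℝ)
    (_hv : v ∈ closure (Set.range fun x => x - T x))
    (hmin : ∀ w ∈ closure (Set.range fun x => x - T x), |v| ≤ |w|) (h0 : v ≠ 0) (x y : ℝ) :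
    ∃ l, Tendsto (fun n => T^[n] x - T^[n] y) atTop (𝓝 l) := by
  have a : ∀ x, |v| ≤ |x - T x| := fun x => hmin _ (subset_closure ⟨x, rfl⟩)
  have p := abs_pos.2 h0
  have c : Continuous fun x => x - T x := continuous_id.sub
    (LipschitzWith.of_dist_le_mul (K := 1) fun x y => by simpa [Real.dist_eq] using hT x y).continuous
  by_cases h : ∀ x, 0 ≤ x - T x
  · exact pos hT p (fun x => (a x).trans_eq (abs_of_nonneg (h x))) x y
  · push Not at h
    obtain ⟨z, hz⟩ := h
    have n : ∀ x, x - T x ≤ 0 := fun x => by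
      by_contra! h'
      obtain ⟨w, hw⟩ := intermediate_value_univ z x c ⟨hz.le, h'.le⟩
      have := a w
      rw [show w - T w = 0 from hw, abs_zero] at this
      linarith
    obtain ⟨l, hl⟩ := pos (T := fun x => -T (-x)) (fun x y => by
      have := hT (-y) (-x)
      rwa [neg_sub_neg, ← neg_sub_neg (T (-x))] at this) p
      (fun x => by linarith [a (-x), abs_of_nonpos (n (-x))]) (-x) (-y)
    have e : ∀ k x, (fun x => -T (-x))^[k] (-x) = -T^[k] x := fun k x => by
      induction k with
      | zero => rfl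
      | succ k ih => simp only [Function.iterate_succ_apply', ih, neg_neg]
    exact ⟨-l, hl.neg.congr fun k => by rw [e, e]; ring⟩

end Pool.Agent.Results.MP_0aa9c3_an.Conv
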